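import Mathlib

/-!
# Slowly varying bounded sequences: the limit points form a closed interval
-/

namespace Pool.Agent.Helper33.FL

open Filter Topology

theorem cluster_Icc (u : ℕ → ℝ) (a b : ℝ) (hlow : ∀ n, a ≤ u n)
    (hup : ∀ ε > 0, ∃ N : ℕ, ∀ n, N ≤ n → u n ≤ b + ε)
    (hd : Tendsto (fun n => u (n + 1) - u n) atTop (𝓝 0)) :
    ∃ s t : ℝ, a ≤ s ∧ s ≤ t ∧ t ≤ b ∧ {x | MapClusterPt x atTop u} = Set.Icc s t := by
  obtain ⟨N1, hN1⟩ := hup 1 one_pos
  have hbu : IsBoundedUnder (· ≤ ·) atTop u :=
    ⟨b + 1, by rw [eventually_map]; exact eventually_atTop.mpr ⟨N1, hN1⟩⟩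
  have hbl : IsBoundedUnder (· ≥ ·) atTop u :=
    ⟨a, by rw [eventually_map]; exact Eventually.of_forall hlow⟩
  have hcu : IsCoboundedUnder (· ≤ ·) atTop u := hbl.isCoboundedUnder_le
  have hcl : IsCoboundedUnder (· ≥ ·) atTop u := hbu.isCoboundedUnder_ge
  set s := liminf u atTop with hs
  set t := limsup u atTop with ht
  have hst : s ≤ t := liminf_le_limsup hbu hbl
  have has : a ≤ s := le_liminf_of_le hcl (Eventually.of_forall hlow)
  have htb : t ≤ b := by
    refine le_of_forall_pos_le_add (fun ε hε => ?_)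
    obtain ⟨N, hN⟩ := hup ε hε
    exact limsup_le_of_le hcu (eventually_atTop.mpr ⟨N, hN⟩)
  refine ⟨s, t, has, hst, htb, ?_⟩
  ext x
  simp only [Set.mem_ofPred_eq, Set.mem_Icc]
  rw [mapClusterPt_iff_frequently]
  constructor
  · intro h
    constructor
    · by_contra hx
      push Not at hx
      have h1 := eventually_lt_of_lt_liminf (b := (x + s) / 2) (u := u) (f := atTop)
        (by rw [← hs]; linarith) hbl
      have h2 := h (Set.Iio ((x + s) / 2)) (Iio_mem_nhds (by linarith))
      obtain ⟨n, hn1, hn2⟩ := (h2.and_eventually h1).exists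
      simp only [Set.mem_Iio] at hn1
      linarith
    · by_contra hx
      push Not at hx
      have h1 := eventually_lt_of_limsup_lt (b := (x + t) / 2) (u := u) (f := atTop)
        (by rw [← ht]; linarith) hbu
      have h2 := h (Set.Ioi ((x + t) / 2)) (Ioi_mem_nhds (by linarith))
      obtain ⟨n, hn1, hn2⟩ := (h2.and_eventually h1).exists
      simp only [Set.mem_Ioi] at hn1
      linarith
  · rintro ⟨hx1, hx2⟩ S hS
    obtain ⟨ε, hε, hball⟩ := Metric.mem_nhds_iff.mp hS
    rw [frequently_atTop]
    intro N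
    -- steps small
    have hstep : ∀ᶠ n in atTop, |u (n + 1) - u n| < ε := by
      have := Metric.tendsto_nhds.mp hd ε hε
      simpa [Real.dist_eq] using this
    obtain ⟨N2, hN2⟩ := eventually_atTop.mp hstep
    have hfl : ∃ᶠ n in atTop, u n < x + ε :=
      frequently_lt_of_liminf_lt hcl (by rw [← hs]; linarith)
    have hfu : ∃ᶠ n in atTop, x - ε < u n :=
      frequently_lt_of_lt_limsup hcu (by rw [← ht]; linarith)
    obtain ⟨n1, hn1, hn1'⟩ := (frequently_atTop.mp hfl) (max N N2)
    obtain ⟨n2, hn2, hn2'⟩ := (frequently_atTop.mp hfu) n1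
    -- the first index from n1 on with x - ε < u
    by_cases h1 : x - ε < u n1
    · refine ⟨n1, (le_max_left _ _).trans hn1, hball ?_⟩
      rw [Metric.mem_ball, Real.dist_eq, abs_lt]
      constructor <;> linarith
    · push Not at h1
      have hex : ∃ n, n1 ≤ n ∧ x - ε < u n := ⟨n2, hn2, hn2'⟩
      classical
      set n := Nat.find hex with hn
      have hnspec := Nat.find_spec hex
      rw [← hn] at hnspec
      have hne : n ≠ n1 := by
        intro h0; rw [h0] at hnspec; linarith [hnspec.2]
      have hlt : n1 < n := lt_of_le_of_ne hnspec.1 (Ne.symm hne)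
      obtain ⟨p, hp⟩ : ∃ p, n = p + 1 := ⟨n - 1, by omega⟩
      have hpn1 : n1 ≤ p := by omega
      have hpmin := Nat.find_min hex (m := p) (by rw [← hn]; omega)
      push Not at hpmin
      have hup := hpmin hpn1
      have hst := hN2 p (((le_max_right N N2).trans hn1).trans hpn1)
      rw [← hp] at hst
      refine ⟨n, ((le_max_left N N2).trans hn1).trans hnspec.1, hball ?_⟩
      rw [Metric.mem_ball, Real.dist_eq, abs_lt]
      have := abs_lt.mp hst
      constructor <;> linarith [hnspec.2, this.2]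

end Pool.Agent.Helper33.FL
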