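import Mathlib

/-!
# Numbers 2^a 10^b are multiplicatively dense
-/

namespace Pool.Agent.Helper33.FL

theorem exists_close (δ : ℝ) (hδ : 0 < δ) : ∃ j b : ℕ, 0 < j ∧ 0 < b ∧
    (b * Real.log 10 - j * Real.log 2) ≠ 0 ∧ |b * Real.log 10 - j * Real.log 2| < δ := by
  have hl2 : 0 < Real.log 2 := Real.log_pos (by norm_num)
  obtain ⟨n, hn⟩ := exists_nat_gt (max 1 (Real.log 2 / δ))
  have hn1 : (1 : ℝ) < n := (le_max_left _ _).trans_lt hn
  have hn2 : Real.log 2 / δ < n := (le_max_right _ _).trans_lt hn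
  have hnpos : 0 < n := by exact_mod_cast (zero_lt_one.trans hn1)
  obtain ⟨J, B, hB, _, h⟩ := Real.exists_int_int_abs_mul_sub_le (Real.log 10 / Real.log 2) hnpos
  obtain ⟨b, rfl⟩ := Int.eq_ofNat_of_zero_le hB.le
  have hb : 0 < b := by exact_mod_cast hB
  have h10 : Real.log 2 < Real.log 10 := Real.log_lt_log (by norm_num) (by norm_num)
  have hratio : 1 < Real.log 10 / Real.log 2 := by rwa [lt_div_iff₀ hl2, one_mul]
  have hb1 : (1 : ℝ) ≤ b := by exact_mod_cast hb
  have hsmall : (1 : ℝ) / (n + 1) < 1 := by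
    rw [div_lt_one (by positivity)]; linarith
  have hJ : (0 : ℝ) < J := by
    have := abs_le.mp h
    have h3 : (1 : ℝ) ≤ (b : ℝ) * (Real.log 10 / Real.log 2) := by nlinarith
    have h4 : ((((b : ℕ) : ℤ) : ℝ)) = (b : ℝ) := by norm_cast
    rw [h4] at this
    linarith [this.2]
  have hJ' : 0 < J := by exact_mod_cast hJ
  obtain ⟨j, rfl⟩ := Int.eq_ofNat_of_zero_le hJ'.le
  have hj : 0 < j := by exact_mod_cast hJ'
  refine ⟨j, b, hj, hb, ?_, ?_⟩
  · intro h0
    have h1 : Real.log ((10 : ℝ) ^ b) = Real.log ((2 : ℝ) ^ j) := by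
      rw [Real.log_pow, Real.log_pow]; linarith
    have h2 : (10 : ℝ) ^ b = (2 : ℝ) ^ j :=
      Real.log_injOn_pos (Set.mem_Ioi.mpr (by positivity)) (Set.mem_Ioi.mpr (by positivity)) h1
    have h3 : 10 ^ b = 2 ^ j := by exact_mod_cast h2
    have h4 : 5 ∣ 2 ^ j := by
      rw [← h3]
      exact (by norm_num : 5 ∣ 10).trans (dvd_pow_self 10 (by omega))
    have h5 := (Nat.Prime.dvd_of_dvd_pow (by norm_num) h4 : 5 ∣ 2)
    omega
  · have e : (b : ℝ) * Real.log 10 - j * Real.log 2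
        = Real.log 2 * ((b : ℝ) * (Real.log 10 / Real.log 2) - j) := by
      field_simp
    have h' : |(b : ℝ) * (Real.log 10 / Real.log 2) - j| ≤ 1 / (n + 1) := by
      simpa using h
    rw [e, abs_mul, abs_of_pos hl2]
    calc Real.log 2 * |(b : ℝ) * (Real.log 10 / Real.log 2) - j|
        ≤ Real.log 2 * (1 / (n + 1)) := mul_le_mul_of_nonneg_left h' hl2.le
      _ < δ := by
        rw [mul_one_div, div_lt_iff₀ (by positivity)]
        rw [div_lt_iff₀ hδ] at hn2
        nlinarith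

theorem dense_golay (ρ : ℝ) (hρ0 : 0 < ρ) (hρ : ρ < 1) : ∃ X : ℕ, ∀ x : ℕ, X ≤ x →
    ∃ a b : ℕ, 2 ^ a * 10 ^ b ≤ x ∧ ρ * x ≤ ((2 ^ a * 10 ^ b : ℕ) : ℝ) := by
  have hδ : 0 < - Real.log ρ := by
    have := Real.log_neg hρ0 hρ
    linarith
  obtain ⟨j, b, hj, hb, hne, hlt⟩ := exists_close _ hδ
  set t : ℝ := b * Real.log 10 - j * Real.log 2 with ht
  have hl2 : 0 < Real.log 2 := Real.log_pos (by norm_num)
  obtain ⟨T, hT⟩ := exists_nat_gt (Real.log 2 / |t| + 1)
  have htabs : 0 < |t| := abs_pos.mpr hne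
  refine ⟨2 ^ (j * (T + 1)), fun x hx => ?_⟩
  have hxpos : 0 < x := lt_of_lt_of_le (by positivity) hx
  have hx0 : (0 : ℝ) < x := by exact_mod_cast hxpos
  set A := Nat.log 2 x with hA
  have hA1 : 2 ^ A ≤ x := Nat.pow_log_le_self 2 (by omega)
  have hA2 : x < 2 ^ (A + 1) := Nat.lt_pow_succ_log_self (by norm_num) x
  have hAbig : j * (T + 1) ≤ A := (Nat.le_log_iff_pow_le (by norm_num) (by omega)).mpr hx
  have hlA1 : A * Real.log 2 ≤ Real.log x := by
    rw [← Real.log_pow]
    exact Real.log_le_log (by positivity) (by exact_mod_cast hA1)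
  have hlA2 : Real.log x < (A + 1) * Real.log 2 := by
    have : Real.log x < Real.log ((2 : ℝ) ^ (A + 1)) :=
      Real.log_lt_log hx0 (by exact_mod_cast hA2)
    rw [Real.log_pow] at this
    push_cast at this
    exact this
  -- it suffices to find i, e with suitable logs
  have main : ∃ i e : ℕ, j * i ≤ e ∧ (e * Real.log 2 + i * t ≤ Real.log x) ∧
      (Real.log x - |t| ≤ e * Real.log 2 + i * t) := by
    rcases lt_or_gt_of_ne hne with hneg | hpos
    · -- t < 0
      have habs : |t| = -t := abs_of_neg hneg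
      set y : ℝ := ((A + 1) * Real.log 2 - Real.log x) / |t| with hy
      have hy0 : 0 ≤ y := by
        rw [hy]; apply div_nonneg _ htabs.le; linarith
      refine ⟨⌈y⌉₊, A + 1, ?_, ?_, ?_⟩
      · have h1 : (⌈y⌉₊ : ℝ) < y + 1 := Nat.ceil_lt_add_one hy0
        have h2 : y ≤ Real.log 2 / |t| := by
          rw [hy]
          apply div_le_div_of_nonneg_right _ htabs.le
          linarith
        have h3 : (⌈y⌉₊ : ℝ) < T := by linarith
        have h4 : ⌈y⌉₊ < T := by exact_mod_cast h3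
        calc j * ⌈y⌉₊ ≤ j * (T + 1) := Nat.mul_le_mul_left _ (by omega)
          _ ≤ A := hAbig
          _ ≤ A + 1 := by omega
      · have h1 : y ≤ (⌈y⌉₊ : ℝ) := Nat.le_ceil y
        have h2 : y * |t| = (A + 1) * Real.log 2 - Real.log x := by
          rw [hy]; field_simp
        have h3 : y * |t| ≤ (⌈y⌉₊ : ℝ) * |t| := mul_le_mul_of_nonneg_right h1 htabs.le
        push_cast
        rw [habs] at h2 h3
        nlinarith
      · have h1 : (⌈y⌉₊ : ℝ) < y + 1 := Nat.ceil_lt_add_one hy0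
        have h2 : y * |t| = (A + 1) * Real.log 2 - Real.log x := by
          rw [hy]; field_simp
        have h3 : (⌈y⌉₊ : ℝ) * |t| ≤ (y + 1) * |t| := mul_le_mul_of_nonneg_right h1.le htabs.le
        push_cast
        rw [habs] at h2 h3 ⊢
        nlinarith
    · have habs : |t| = t := abs_of_pos hpos
      set y : ℝ := (Real.log x - A * Real.log 2) / |t| with hy
      have hy0 : 0 ≤ y := by
        rw [hy]; apply div_nonneg _ htabs.le; linarith
      refine ⟨⌊y⌋₊, A, ?_, ?_, ?_⟩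
      · have h1 : (⌊y⌋₊ : ℝ) ≤ y := Nat.floor_le hy0
        have h2 : y ≤ Real.log 2 / |t| := by
          rw [hy]
          apply div_le_div_of_nonneg_right _ htabs.le
          linarith
        have h3 : (⌊y⌋₊ : ℝ) < T := by linarith
        have h4 : ⌊y⌋₊ < T := by exact_mod_cast h3
        calc j * ⌊y⌋₊ ≤ j * (T + 1) := Nat.mul_le_mul_left _ (by omega)
          _ ≤ A := hAbig
      · have h1 : (⌊y⌋₊ : ℝ) ≤ y := Nat.floor_le hy0
        have h2 : y * |t| = Real.log x - A * Real.log 2 := by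
          rw [hy]; field_simp
        have h3 : (⌊y⌋₊ : ℝ) * |t| ≤ y * |t| := mul_le_mul_of_nonneg_right h1 htabs.le
        rw [habs] at h2 h3
        nlinarith
      · have h1 : y < (⌊y⌋₊ : ℝ) + 1 := Nat.lt_floor_add_one y
        have h2 : y * |t| = Real.log x - A * Real.log 2 := by
          rw [hy]; field_simp
        have h3 : y * |t| ≤ ((⌊y⌋₊ : ℝ) + 1) * |t| := mul_le_mul_of_nonneg_right h1.le htabs.le
        rw [habs] at h2 h3 ⊢
        nlinarith
  obtain ⟨i, e, hie, hle, hge⟩ := main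
  refine ⟨e - j * i, b * i, ?_, ?_⟩
  all_goals
    have hv : Real.log (((2 ^ (e - j * i) * 10 ^ (b * i) : ℕ)) : ℝ) = e * Real.log 2 + i * t := by
      push_cast
      rw [Real.log_mul (by positivity) (by positivity), Real.log_pow, Real.log_pow,
        Nat.cast_sub hie, ht]
      push_cast
      ring
    have hvpos : (0 : ℝ) < ((2 ^ (e - j * i) * 10 ^ (b * i) : ℕ) : ℝ) := by positivity
  · have : Real.log (((2 ^ (e - j * i) * 10 ^ (b * i) : ℕ)) : ℝ) ≤ Real.log x := by rw [hv]; exact hle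
    have h5 := (Real.log_le_log_iff hvpos hx0).mp this
    exact_mod_cast h5
  · have h6 : Real.log (ρ * x) ≤ Real.log (((2 ^ (e - j * i) * 10 ^ (b * i) : ℕ)) : ℝ) := by
      rw [hv, Real.log_mul hρ0.ne' hx0.ne']
      linarith
    exact (Real.log_le_log_iff (by positivity) hvpos).mp h6

end Pool.Agent.Helper33.FL
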