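import Pool.Agent.Helper33.FL.Golay

/-!
# Parseval at the roots of unity
-/

namespace Pool.Agent.Helper33.FL

open Finset

theorem sum_roots {N : ℕ} (hN : 0 < N) {ω : ℂ} (hω : IsPrimitiveRoot ω N) (hn : ‖ω‖ = 1)
    {k l : ℕ} (hk : k < N) (hl : l < N) :
    ∑ j ∈ range N, (ω ^ k * (starRingEnd ℂ) ω ^ l) ^ j = if k = l then (N : ℂ) else 0 := by
  have hcm : (starRingEnd ℂ) ω * ω = 1 := conj_mul_self hn
  split_ifs with h
  · subst h
    have : ω ^ k * (starRingEnd ℂ) ω ^ k = 1 := by rw [← mul_pow, mul_comm, hcm, one_pow]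
    simp [this]
  · have hN1 : (ω ^ k * (starRingEnd ℂ) ω ^ l) ^ N = 1 := by
      have h1 : ω ^ N = 1 := hω.pow_eq_one
      have h2 : (starRingEnd ℂ) ω ^ N = 1 := by rw [← map_pow, h1, map_one]
      calc (ω ^ k * (starRingEnd ℂ) ω ^ l) ^ N = (ω ^ N) ^ k * ((starRingEnd ℂ) ω ^ N) ^ l := by ring
        _ = 1 := by rw [h1, h2]; simp
    have hne : ω ^ k * (starRingEnd ℂ) ω ^ l ≠ 1 := by
      intro h1
      have h2 : ω ^ k = ω ^ l := by
        calc ω ^ k = ω ^ k * ((starRingEnd ℂ) ω * ω) ^ l := by rw [hcm]; simp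
          _ = (ω ^ k * (starRingEnd ℂ) ω ^ l) * ω ^ l := by ring
          _ = ω ^ l := by rw [h1, one_mul]
      exact h (hω.pow_inj hk hl h2)
    rw [geom_sum_eq hne, hN1, sub_self, zero_div]

theorem parseval {N : ℕ} (hN : 0 < N) {a : ℕ → ℤ} (ha : IsPM N a) :
    ∃ ω : ℂ, ‖ω‖ = 1 ∧ ∑ j ∈ range N, ‖val N a (ω ^ j)‖ ^ 2 = (N : ℝ) * N := by
  set ω : ℂ := Complex.exp (2 * Real.pi * Complex.I / N) with hω
  have hprim : IsPrimitiveRoot ω N := Complex.isPrimitiveRoot_exp N hN.ne'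
  have hn : ‖ω‖ = 1 := hprim.norm'_eq_one hN.ne'
  refine ⟨ω, hn, ?_⟩
  have hc : ∀ x : ℂ, ((‖x‖ ^ 2 : ℝ) : ℂ) = x * (starRingEnd ℂ) x := by
    intro x; rw [Complex.mul_conj, Complex.normSq_eq_norm_sq]
  have key : ((∑ j ∈ range N, ‖val N a (ω ^ j)‖ ^ 2 : ℝ) : ℂ) = (((N : ℝ) * N : ℝ) : ℂ) := by
    rw [Complex.ofReal_sum]
    have h1 : ∀ j ∈ range N, ((‖val N a (ω ^ j)‖ ^ 2 : ℝ) : ℂ)
        = ∑ k ∈ range N, ∑ l ∈ range N, (a k : ℂ) * (a l : ℂ) *
          (ω ^ k * (starRingEnd ℂ) ω ^ l) ^ j := by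
      intro j _
      rw [hc, conj_val]
      unfold val
      rw [sum_mul_sum]
      refine sum_congr rfl (fun k _ => sum_congr rfl (fun l _ => ?_))
      rw [map_pow]; ring
    rw [sum_congr rfl h1, sum_comm]
    have h2 : ∀ k ∈ range N, ∑ j ∈ range N, ∑ l ∈ range N, (a k : ℂ) * (a l : ℂ) *
          (ω ^ k * (starRingEnd ℂ) ω ^ l) ^ j = N := by
      intro k hk
      rw [sum_comm]
      have h3 : ∀ l ∈ range N, ∑ j ∈ range N, (a k : ℂ) * (a l : ℂ) *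
          (ω ^ k * (starRingEnd ℂ) ω ^ l) ^ j = if k = l then (N : ℂ) else 0 := by
        intro l hl
        rw [← mul_sum, sum_roots hN hprim hn (mem_range.mp hk) (mem_range.mp hl)]
        split_ifs with h
        · subst h
          rcases ha k (mem_range.mp hk) with h | h <;> simp [h]
        · simp
      rw [sum_congr rfl h3, sum_ite_eq]
      simp [mem_range.mp hk]
    rw [sum_congr rfl h2]
    simp
  exact Complex.ofReal_injective key

theorem exists_small {N : ℕ} (hN : 0 < N) {a : ℕ → ℤ} (ha : IsPM N a) :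
    ∃ z : ℂ, ‖z‖ = 1 ∧ ‖val N a z‖ ≤ Real.sqrt N := by
  obtain ⟨ω, hω, h⟩ := parseval hN ha
  by_contra hcon
  push Not at hcon
  have h1 : ∀ j ∈ range N, (N : ℝ) < ‖val N a (ω ^ j)‖ ^ 2 := by
    intro j _
    have h2 := hcon (ω ^ j) (by rw [norm_pow, hω, one_pow])
    have h3 : Real.sqrt N ^ 2 = N := Real.sq_sqrt (by positivity)
    have h4 := Real.sqrt_nonneg (N : ℝ)
    nlinarith
  have h2 := sum_lt_sum_of_nonempty (nonempty_range_iff.mpr hN.ne') h1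
  rw [h] at h2
  simp at h2

theorem exists_large {N : ℕ} (hN : 0 < N) {a : ℕ → ℤ} (ha : IsPM N a) :
    ∃ z : ℂ, ‖z‖ = 1 ∧ Real.sqrt N ≤ ‖val N a z‖ := by
  obtain ⟨ω, hω, h⟩ := parseval hN ha
  by_contra hcon
  push Not at hcon
  have h1 : ∀ j ∈ range N, ‖val N a (ω ^ j)‖ ^ 2 < (N : ℝ) := by
    intro j _
    have h2 := hcon (ω ^ j) (by rw [norm_pow, hω, one_pow])
    have h3 : Real.sqrt N ^ 2 = N := Real.sq_sqrt (by positivity)
    have h4 := norm_nonneg (val N a (ω ^ j))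
    nlinarith
  have h2 := sum_lt_sum_of_nonempty (nonempty_range_iff.mpr hN.ne') h1
  rw [h] at h2
  simp at h2

end Pool.Agent.Helper33.FL
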