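import Mathlib

/-!
# Littlewood polynomials, skew-symmetric ones, and the six extremal quantities
-/

namespace Pool.Agent.Helper33.FL

/-- `U n`: polynomials of degree `n` all of whose coefficients are `1` or `-1`. -/
def U (n : ℕ) : Set (Polynomial ℂ) :=
  {F | F.natDegree = n ∧ ∀ k ≤ n, F.coeff k = 1 ∨ F.coeff k = -1}

/-- For even `n`: the skew-symmetric members of `U n`. -/
def UStar (n : ℕ) : Set (Polynomial ℂ) :=
  {F | F ∈ U n ∧ ∀ j ≤ n / 2, F.coeff (n / 2 + j) = (-1) ^ j * F.coeff (n / 2 - j)}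

/-- `M(F)`, the maximum of `|F(z)| / sqrt (n + 1)` over the unit circle. -/
noncomputable def maxMod (n : ℕ) (F : Polynomial ℂ) : ℝ :=
  sSup ((fun z : ℂ => ‖F.eval z‖ / Real.sqrt (n + 1)) '' Metric.sphere 0 1)

/-- `m(F)`, the minimum of `|F(z)| / sqrt (n + 1)` over the unit circle. -/
noncomputable def minMod (n : ℕ) (F : Polynomial ℂ) : ℝ :=
  sInf ((fun z : ℂ => ‖F.eval z‖ / Real.sqrt (n + 1)) '' Metric.sphere 0 1)

/-- `W(F) = M(F) - m(F)`. -/
noncomputable def width (n : ℕ) (F : Polynomial ℂ) : ℝ := maxMod n F - minMod n F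

/-- `M_n` for `A = U`, and `M_n^*` for `A = UStar`. -/
noncomputable def MM (A : ℕ → Set (Polynomial ℂ)) (n : ℕ) : ℝ := sInf (maxMod n '' A n)

/-- `m_n` for `A = U`, and `m_n^*` for `A = UStar`. -/
noncomputable def mm (A : ℕ → Set (Polynomial ℂ)) (n : ℕ) : ℝ := sSup (minMod n '' A n)

/-- `W_n` for `A = U`, and `W_n^*` for `A = UStar`. -/
noncomputable def WW (A : ℕ → Set (Polynomial ℂ)) (n : ℕ) : ℝ := sInf (width n '' A n)

end Pool.Agent.Helper33.FL
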