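import Pool.Agent.Helper33.FL.Skew
import Pool.Agent.Helper33.FL.Cluster
import Pool.Agent.Helper33.FL.Parseval
import Pool.Agent.Helper33.FL.Statement

/-!
# First facts on the six extremal quantities
-/

namespace Pool.Agent.Helper33.FL

open Filter Topology

/-- The polynomial with a given sequence of coefficients. -/
noncomputable def poly (N : ℕ) (a : ℕ → ℤ) : Polynomial ℂ :=
  ∑ k ∈ Finset.range N, Polynomial.C (a k : ℂ) * Polynomial.X ^ k

theorem eval_poly (N : ℕ) (a : ℕ → ℤ) (z : ℂ) : (poly N a).eval z = val N a z := by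
  unfold poly val
  rw [Polynomial.eval_finsetSum]
  refine Finset.sum_congr rfl (fun k _ => ?_)
  simp

theorem coeff_poly (N : ℕ) (a : ℕ → ℤ) (k : ℕ) :
    (poly N a).coeff k = if k < N then (a k : ℂ) else 0 := by
  unfold poly
  rw [Polynomial.finsetSum_coeff]
  simp only [Polynomial.coeff_C_mul_X_pow]
  rw [Finset.sum_ite_eq (Finset.range N) k (fun j => (a j : ℂ))]
  simp only [Finset.mem_range]

theorem poly_mem_U {n : ℕ} {a : ℕ → ℤ} (ha : IsPM (n + 1) a) : poly (n + 1) a ∈ U n := by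
  have hc : ∀ k ≤ n, (poly (n + 1) a).coeff k = 1 ∨ (poly (n + 1) a).coeff k = -1 := by
    intro k hk
    rw [coeff_poly, if_pos (by omega)]
    rcases ha k (by omega) with h | h
    · left; rw [h]; simp
    · right; rw [h]; simp
  refine ⟨le_antisymm ?_ ?_, hc⟩
  · rw [Polynomial.natDegree_le_iff_coeff_eq_zero]
    intro k hk
    rw [coeff_poly, if_neg (by omega)]
  · apply Polynomial.le_natDegree_of_ne_zero
    rcases hc n le_rfl with h | h <;> rw [h] <;> norm_num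

theorem exists_of_mem_U {n : ℕ} {F : Polynomial ℂ} (hF : F ∈ U n) :
    ∃ a : ℕ → ℤ, IsPM (n + 1) a ∧ F = poly (n + 1) a := by
  classical
  refine ⟨fun k => if F.coeff k = 1 then 1 else -1, fun k _ => ?_, ?_⟩
  · by_cases h : F.coeff k = 1 <;> simp [h]
  · ext k
    rw [coeff_poly]
    by_cases hk : k < n + 1
    · rw [if_pos hk]
      rcases hF.2 k (by omega) with h | h
      · simp [h]
      · have : ¬ ((-1 : ℂ) = 1) := by norm_num
        simp [h, this]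
    · rw [if_neg hk]
      apply Polynomial.coeff_eq_zero_of_natDegree_lt
      rw [hF.1]; omega

theorem poly_mem_UStar {m : ℕ} {c : ℕ → ℤ} (hc : IsPM (m + 1) c) :
    poly (2 * m + 1) (skew m c) ∈ UStar (2 * m) := by
  refine ⟨poly_mem_U (skew_pm hc), fun j hj => ?_⟩
  have h2 : 2 * m / 2 = m := by omega
  rw [h2] at hj ⊢
  rw [coeff_poly, coeff_poly, if_pos (by omega), if_pos (by omega), skew_symm j hj]
  push_cast; ring

theorem exists_of_mem_UStar {m : ℕ} {F : Polynomial ℂ} (hF : F ∈ UStar (2 * m)) :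
    ∃ c : ℕ → ℤ, IsPM (m + 1) c ∧ F = poly (2 * m + 1) (skew m c) := by
  obtain ⟨a, ha, hFa⟩ := exists_of_mem_U hF.1
  refine ⟨fun j => a (m - j), fun j hj => ha _ (by omega), ?_⟩
  have hs := hF.2
  have h2 : 2 * m / 2 = m := by omega
  rw [h2] at hs
  ext k
  rw [coeff_poly]
  by_cases hk : k < 2 * m + 1
  · rw [if_pos hk]
    by_cases hkm : k < m
    · have h3 : m - (m - k) = k := by omega
      rw [hFa, coeff_poly, if_pos hk]
      simp [skew, hkm, h3]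
    · have h3 := hs (k - m) (by omega)
      have h4 : m + (k - m) = k := by omega
      rw [h4] at h3
      rw [h3, hFa, coeff_poly, if_pos (by omega)]
      simp [skew, hkm]
  · rw [if_neg hk, hFa, coeff_poly, if_neg hk]

theorem U_nonempty (n : ℕ) : (U n).Nonempty :=
  ⟨_, poly_mem_U (a := fun _ => 1) (fun _ _ => Or.inl rfl)⟩

theorem UStar_nonempty (m : ℕ) : (UStar (2 * m)).Nonempty :=
  ⟨_, poly_mem_UStar (c := fun _ => 1) (fun _ _ => Or.inl rfl)⟩

theorem norm_val_le {N : ℕ} {a : ℕ → ℤ} (ha : IsPM N a) {z : ℂ} (hz : ‖z‖ = 1) :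
    ‖val N a z‖ ≤ N := by
  unfold val
  refine (norm_sum_le _ _).trans ?_
  calc ∑ k ∈ Finset.range N, ‖(a k : ℂ) * z ^ k‖ ≤ ∑ k ∈ Finset.range N, (1 : ℝ) := by
        refine Finset.sum_le_sum (fun k hk => ?_)
        rw [norm_mul, norm_pow, hz, one_pow, mul_one]
        rcases ha k (Finset.mem_range.mp hk) with h | h <;> rw [h] <;> simp
    _ = N := by simp

/-- A family of sets of Littlewood polynomials. -/
def Sub (A : ℕ → Set (Polynomial ℂ)) : Prop := ∀ n, ∀ F ∈ A n, F ∈ U n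

theorem eval_bound {n : ℕ} {F : Polynomial ℂ} (hF : F ∈ U n) {z : ℂ} (hz : ‖z‖ = 1) :
    ‖F.eval z‖ ≤ n + 1 := by
  obtain ⟨a, ha, rfl⟩ := exists_of_mem_U hF
  rw [eval_poly]
  simpa using norm_val_le ha hz

/-! ### The functionals -/

theorem sphere_nonempty : (Metric.sphere (0 : ℂ) 1).Nonempty := ⟨1, by simp⟩

theorem mod_le_max {n : ℕ} {F : Polynomial ℂ} (hF : F ∈ U n) {z : ℂ} (hz : ‖z‖ = 1) :
    ‖F.eval z‖ / Real.sqrt (n + 1) ≤ maxMod n F := by
  apply le_csSup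
  · refine ⟨(n + 1) / Real.sqrt (n + 1), ?_⟩
    rintro _ ⟨w, hw, rfl⟩
    have hw' : ‖w‖ = 1 := by simpa using hw
    exact div_le_div_of_nonneg_right (eval_bound hF hw') (Real.sqrt_nonneg _)
  · exact ⟨z, by simpa using hz, rfl⟩

theorem max_le {n : ℕ} {F : Polynomial ℂ} {B : ℝ}
    (h : ∀ z : ℂ, ‖z‖ = 1 → ‖F.eval z‖ / Real.sqrt (n + 1) ≤ B) : maxMod n F ≤ B := by
  apply csSup_le (sphere_nonempty.image _)
  rintro _ ⟨w, hw, rfl⟩
  exact h w (by simpa using hw)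

theorem min_le_mod {n : ℕ} {F : Polynomial ℂ} {z : ℂ} (hz : ‖z‖ = 1) :
    minMod n F ≤ ‖F.eval z‖ / Real.sqrt (n + 1) := by
  apply csInf_le
  · refine ⟨0, ?_⟩
    rintro _ ⟨w, _, rfl⟩
    positivity
  · exact ⟨z, by simpa using hz, rfl⟩

theorem le_min {n : ℕ} {F : Polynomial ℂ} {B : ℝ}
    (h : ∀ z : ℂ, ‖z‖ = 1 → B ≤ ‖F.eval z‖ / Real.sqrt (n + 1)) : B ≤ minMod n F := by
  apply le_csInf (sphere_nonempty.image _)
  rintro _ ⟨w, hw, rfl⟩
  exact h w (by simpa using hw)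

theorem min_nonneg (n : ℕ) (F : Polynomial ℂ) : 0 ≤ minMod n F :=
  le_min (fun _ _ => by positivity)

theorem min_le_one {n : ℕ} {F : Polynomial ℂ} (hF : F ∈ U n) : minMod n F ≤ 1 := by
  obtain ⟨a, ha, rfl⟩ := exists_of_mem_U hF
  obtain ⟨z, hz, h⟩ := exists_small (Nat.succ_pos n) ha
  refine (min_le_mod hz).trans ?_
  rw [eval_poly, div_le_one (Real.sqrt_pos.mpr (by positivity))]
  simpa using h

theorem one_le_max {n : ℕ} {F : Polynomial ℂ} (hF : F ∈ U n) : 1 ≤ maxMod n F := by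
  obtain ⟨a, ha, hFa⟩ := exists_of_mem_U hF
  obtain ⟨z, hz, h⟩ := exists_large (Nat.succ_pos n) ha
  refine le_trans ?_ (mod_le_max hF hz)
  rw [hFa, eval_poly, one_le_div (Real.sqrt_pos.mpr (by positivity))]
  simpa using h

theorem width_nonneg {n : ℕ} {F : Polynomial ℂ} (hF : F ∈ U n) : 0 ≤ width n F := by
  unfold width
  linarith [min_le_one hF, one_le_max hF]

theorem width_le_max (n : ℕ) (F : Polynomial ℂ) : width n F ≤ maxMod n F := by
  unfold width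
  linarith [min_nonneg n F]

/-- Two polynomials that are close on the circle. -/
theorem close_normalized {n s : ℕ} (hs : s ≤ 2) {F G : Polynomial ℂ} (hF : F ∈ U n) {z : ℂ}
    (hz : ‖z‖ = 1) (h : |‖F.eval z‖ - ‖G.eval z‖| ≤ 2) :
    |‖F.eval z‖ / Real.sqrt (n + 1) - ‖G.eval z‖ / Real.sqrt ((n + s : ℕ) + 1)|
      ≤ 4 / Real.sqrt (n + 1) := by
  set x := Real.sqrt ((n : ℝ) + 1) with hx
  set y := Real.sqrt (((n + s : ℕ) : ℝ) + 1) with hy
  have hx0 : 0 < x := Real.sqrt_pos.mpr (by positivity)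
  have hxy : x ≤ y := by
    apply Real.sqrt_le_sqrt
    push_cast
    have : (0 : ℝ) ≤ s := by positivity
    linarith
  have hy0 : 0 < y := hx0.trans_le hxy
  have hx2 : x ^ 2 = n + 1 := Real.sq_sqrt (by positivity)
  have hy2 : y ^ 2 = n + 1 + s := by
    rw [hy, Real.sq_sqrt (by positivity)]; push_cast; ring
  have hs2 : (s : ℝ) ≤ 2 := by exact_mod_cast hs
  have hb := eval_bound hF hz
  set f := ‖F.eval z‖ with hf
  set g := ‖G.eval z‖ with hg
  have hf0 : 0 ≤ f := norm_nonneg _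
  have e : f / x - g / y = (f - g) / y + f * (1 / x - 1 / y) := by
    field_simp; ring
  have h1 : |(f - g) / y| ≤ 2 / x := by
    rw [abs_div, abs_of_pos hy0]
    calc |f - g| / y ≤ 2 / y := div_le_div_of_nonneg_right h hy0.le
      _ ≤ 2 / x := div_le_div_of_nonneg_left (by norm_num) hx0 hxy
  have h2 : |f * (1 / x - 1 / y)| ≤ 2 / x := by
    have h3 : 0 ≤ 1 / x - 1 / y := by
      rw [sub_nonneg]; exact one_div_le_one_div_of_le hx0 hxy
    rw [abs_of_nonneg (mul_nonneg hf0 h3)]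
    have h4 : 1 / x - 1 / y = (y - x) / (x * y) := by field_simp
    rw [h4, ← mul_div_assoc, div_le_div_iff₀ (by positivity) hx0]
    -- f (y - x) x ≤ 2 x y ; f ≤ x^2, (y-x)(y+x) = s ≤ 2
    have h5 : (y - x) * (y + x) = s := by nlinarith
    have h6 : f * (y - x) ≤ x ^ 2 * (y - x) := mul_le_mul_of_nonneg_right (by linarith) (by linarith)
    have h7 : x ^ 2 * (y - x) ≤ 2 * y := by
      have h8 : x * (y - x) ≤ s := by nlinarith
      nlinarith
    nlinarith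
  rw [e]
  calc |(f - g) / y + f * (1 / x - 1 / y)| ≤ |(f - g) / y| + |f * (1 / x - 1 / y)| :=
        abs_add_le _ _
    _ ≤ 2 / x + 2 / x := add_le_add h1 h2
    _ = 4 / x := by ring

/-- Comparison of the functionals for two polynomials close on the circle. -/
theorem functionals_close {n n' : ℕ} {F G : Polynomial ℂ} (hF : F ∈ U n) (hG : G ∈ U n')
    {d : ℝ} (h : ∀ z : ℂ, ‖z‖ = 1 →
      |‖F.eval z‖ / Real.sqrt (n + 1) - ‖G.eval z‖ / Real.sqrt ((n' : ℝ) + 1)| ≤ d) :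
    |maxMod n F - maxMod n' G| ≤ d ∧ |minMod n F - minMod n' G| ≤ d := by
  have h1 : maxMod n F ≤ maxMod n' G + d := max_le (fun z hz => by
    have := abs_le.mp (h z hz)
    linarith [mod_le_max hG hz, this.2])
  have h2 : maxMod n' G ≤ maxMod n F + d := max_le (fun z hz => by
    have := abs_le.mp (h z hz)
    linarith [mod_le_max hF hz, this.1])
  have h3 : minMod n F - d ≤ minMod n' G := le_min (fun z hz => by
    have := abs_le.mp (h z hz)
    linarith [min_le_mod (n := n) (F := F) hz, this.2])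
  have h4 : minMod n' G - d ≤ minMod n F := le_min (fun z hz => by
    have := abs_le.mp (h z hz)
    linarith [min_le_mod (n := n') (F := G) hz, this.1])
  constructor <;> rw [abs_le] <;> constructor <;> linarith

/-! ### Extremal values -/

theorem sInf_close {P Q : Set ℝ} (hP : P.Nonempty) (hQ : Q.Nonempty) (hPb : BddBelow P)
    (hQb : BddBelow Q) {d : ℝ} (h1 : ∀ p ∈ P, ∃ q ∈ Q, |p - q| ≤ d)
    (h2 : ∀ q ∈ Q, ∃ p ∈ P, |p - q| ≤ d) : |sInf P - sInf Q| ≤ d := by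
  have a1 : sInf P - d ≤ sInf Q := le_csInf hQ (fun q hq => by
    obtain ⟨p, hp, hpq⟩ := h2 q hq
    linarith [csInf_le hPb hp, (abs_le.mp hpq).2])
  have a2 : sInf Q - d ≤ sInf P := le_csInf hP (fun p hp => by
    obtain ⟨q, hq, hpq⟩ := h1 p hp
    linarith [csInf_le hQb hq, (abs_le.mp hpq).1])
  rw [abs_le]; constructor <;> linarith

theorem sSup_close {P Q : Set ℝ} (hP : P.Nonempty) (hQ : Q.Nonempty) (hPb : BddAbove P)
    (hQb : BddAbove Q) {d : ℝ} (h1 : ∀ p ∈ P, ∃ q ∈ Q, |p - q| ≤ d)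
    (h2 : ∀ q ∈ Q, ∃ p ∈ P, |p - q| ≤ d) : |sSup P - sSup Q| ≤ d := by
  have a1 : sSup Q ≤ sSup P + d := csSup_le hQ (fun q hq => by
    obtain ⟨p, hp, hpq⟩ := h2 q hq
    linarith [le_csSup hPb hp, (abs_le.mp hpq).1])
  have a2 : sSup P ≤ sSup Q + d := csSup_le hP (fun p hp => by
    obtain ⟨q, hq, hpq⟩ := h1 p hp
    linarith [le_csSup hQb hq, (abs_le.mp hpq).2])
  rw [abs_le]; constructor <;> linarith

/-- Closeness of the sets at two indices. -/
def Matched (S : Set (Polynomial ℂ)) (T : Set (Polynomial ℂ)) : Prop :=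
  (∀ F ∈ S, ∃ G ∈ T, ∀ z : ℂ, ‖z‖ = 1 → |‖F.eval z‖ - ‖G.eval z‖| ≤ 2) ∧
  (∀ G ∈ T, ∃ F ∈ S, ∀ z : ℂ, ‖z‖ = 1 → |‖F.eval z‖ - ‖G.eval z‖| ≤ 2)

theorem extremal_close {A : ℕ → Set (Polynomial ℂ)} (hA : Sub A) {n s : ℕ} (hs : s ≤ 2)
    (hne : (A n).Nonempty) (hne' : (A (n + s)).Nonempty) (hm : Matched (A n) (A (n + s))) :
    |MM A n - MM A (n + s)| ≤ 4 / Real.sqrt (n + 1) ∧
    |mm A n - mm A (n + s)| ≤ 4 / Real.sqrt (n + 1) ∧
    |WW A n - WW A (n + s)| ≤ 8 / Real.sqrt (n + 1) := by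
  have hcl : ∀ F ∈ A n, ∀ G ∈ A (n + s),
      (∀ z : ℂ, ‖z‖ = 1 → |‖F.eval z‖ - ‖G.eval z‖| ≤ 2) →
      |maxMod n F - maxMod (n + s) G| ≤ 4 / Real.sqrt (n + 1) ∧
      |minMod n F - minMod (n + s) G| ≤ 4 / Real.sqrt (n + 1) ∧
      |width n F - width (n + s) G| ≤ 8 / Real.sqrt (n + 1) := by
    intro F hF G hG h
    obtain ⟨h1, h2⟩ := functionals_close (hA n F hF) (hA (n + s) G hG)
      (d := 4 / Real.sqrt (n + 1)) (fun z hz => close_normalized hs (hA n F hF) hz (h z hz))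
    refine ⟨h1, h2, ?_⟩
    unfold width
    have e : 8 / Real.sqrt ((n : ℝ) + 1) = 4 / Real.sqrt ((n : ℝ) + 1)
      + 4 / Real.sqrt ((n : ℝ) + 1) := by ring
    rw [e]
    rw [abs_le] at h1 h2 ⊢
    constructor <;> linarith [h1.1, h1.2, h2.1, h2.2]
  have bM : ∀ k, BddBelow (maxMod k '' A k) := fun k => ⟨1, by
    rintro _ ⟨F, hF, rfl⟩; exact one_le_max (hA k F hF)⟩
  have bm : ∀ k, BddAbove (minMod k '' A k) := fun k => ⟨1, by
    rintro _ ⟨F, hF, rfl⟩; exact min_le_one (hA k F hF)⟩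
  have bW : ∀ k, BddBelow (width k '' A k) := fun k => ⟨0, by
    rintro _ ⟨F, hF, rfl⟩; exact width_nonneg (hA k F hF)⟩
  refine ⟨?_, ?_, ?_⟩
  · refine sInf_close (hne.image _) (hne'.image _) (bM _) (bM _) ?_ ?_
    · rintro _ ⟨F, hF, rfl⟩
      obtain ⟨G, hG, h⟩ := hm.1 F hF
      exact ⟨_, ⟨G, hG, rfl⟩, (hcl F hF G hG h).1⟩
    · rintro _ ⟨G, hG, rfl⟩
      obtain ⟨F, hF, h⟩ := hm.2 G hG
      exact ⟨_, ⟨F, hF, rfl⟩, (hcl F hF G hG h).1⟩
  · refine sSup_close (hne.image _) (hne'.image _) (bm _) (bm _) ?_ ?_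
    · rintro _ ⟨F, hF, rfl⟩
      obtain ⟨G, hG, h⟩ := hm.1 F hF
      exact ⟨_, ⟨G, hG, rfl⟩, (hcl F hF G hG h).2.1⟩
    · rintro _ ⟨G, hG, rfl⟩
      obtain ⟨F, hF, h⟩ := hm.2 G hG
      exact ⟨_, ⟨F, hF, rfl⟩, (hcl F hF G hG h).2.1⟩
  · refine sInf_close (hne.image _) (hne'.image _) (bW _) (bW _) ?_ ?_
    · rintro _ ⟨F, hF, rfl⟩
      obtain ⟨G, hG, h⟩ := hm.1 F hF
      exact ⟨_, ⟨G, hG, rfl⟩, (hcl F hF G hG h).2.2⟩
    · rintro _ ⟨G, hG, rfl⟩
      obtain ⟨F, hF, h⟩ := hm.2 G hG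
      exact ⟨_, ⟨F, hF, rfl⟩, (hcl F hF G hG h).2.2⟩

end Pool.Agent.Helper33.FL
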