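import Mathlib

/-!
# Golay pairs of length 2^a 10^b, and polynomials of every length with sup norm at most 4 sqrt r
-/

namespace Pool.Agent.Helper33.FL

open Finset

/-- Value at `z` of the polynomial with the first `N` coefficients of `a`. -/
noncomputable def val (N : ℕ) (a : ℕ → ℤ) (z : ℂ) : ℂ := ∑ k ∈ range N, (a k : ℂ) * z ^ k

/-- The first `N` entries are `1` or `-1`. -/
def IsPM (N : ℕ) (a : ℕ → ℤ) : Prop := ∀ k < N, a k = 1 ∨ a k = -1

/-- `L` is the length of a Golay pair. -/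
def Golay (L : ℕ) : Prop := ∃ a b : ℕ → ℤ, IsPM L a ∧ IsPM L b ∧
  ∀ z : ℂ, ‖z‖ = 1 → ‖val L a z‖ ^ 2 + ‖val L b z‖ ^ 2 = 2 * L

theorem val_succ (N : ℕ) (a : ℕ → ℤ) (z : ℂ) :
    val (N + 1) a z = val N a z + (a N : ℂ) * z ^ N := by
  unfold val; rw [sum_range_succ]

theorem val_zero (a : ℕ → ℤ) (z : ℂ) : val 0 a z = 0 := by simp [val]

theorem val_congr {N : ℕ} {a b : ℕ → ℤ} (h : ∀ k < N, a k = b k) (z : ℂ) :
    val N a z = val N b z := by
  unfold val
  refine sum_congr rfl (fun k hk => ?_)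
  rw [h k (mem_range.mp hk)]

theorem val_add (N M : ℕ) (a : ℕ → ℤ) (z : ℂ) :
    val (N + M) a z = val N a z + z ^ N * val M (fun k => a (N + k)) z := by
  unfold val
  rw [sum_range_add, mul_sum]
  congr 1
  refine sum_congr rfl (fun k _ => ?_)
  rw [pow_add]; ring

theorem val_neg (N : ℕ) (a : ℕ → ℤ) (z : ℂ) :
    val N (fun k => - a k) z = - val N a z := by
  unfold val
  rw [← sum_neg_distrib]
  refine sum_congr rfl (fun k _ => ?_)
  push_cast; ring

theorem val_smul (N : ℕ) (c : ℤ) (a : ℕ → ℤ) (z : ℂ) :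
    val N (fun k => c * a k) z = c * val N a z := by
  unfold val
  rw [mul_sum]
  refine sum_congr rfl (fun k _ => ?_)
  push_cast; ring

theorem val_add_fun (N : ℕ) (a b : ℕ → ℤ) (z : ℂ) :
    val N (fun k => a k + b k) z = val N a z + val N b z := by
  unfold val
  rw [← sum_add_distrib]
  refine sum_congr rfl (fun k _ => ?_)
  push_cast; ring

theorem inv_eq_conj {z : ℂ} (hz : ‖z‖ = 1) : z⁻¹ = (starRingEnd ℂ) z := by
  rw [Complex.inv_def, Complex.normSq_eq_norm_sq, hz]; simp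

theorem conj_mul_self {z : ℂ} (hz : ‖z‖ = 1) : (starRingEnd ℂ) z * z = 1 := by
  rw [mul_comm, Complex.mul_conj, Complex.normSq_eq_norm_sq, hz]; simp

theorem conj_val (N : ℕ) (a : ℕ → ℤ) (z : ℂ) :
    (starRingEnd ℂ) (val N a z) = val N a ((starRingEnd ℂ) z) := by
  unfold val
  rw [map_sum]
  refine sum_congr rfl (fun k _ => ?_)
  rw [map_mul, map_pow]; simp

/-- The reversed polynomial on the unit circle. -/
theorem val_reverse (L : ℕ) (b : ℕ → ℤ) {z : ℂ} (hz : ‖z‖ = 1) :
    z * val L (fun r => b (L - 1 - r)) z = z ^ L * (starRingEnd ℂ) (val L b z) := by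
  rw [conj_val]
  unfold val
  rw [mul_sum, mul_sum, ← sum_range_reflect (fun k => z ^ L * ((b k : ℂ) * (starRingEnd ℂ) z ^ k))]
  refine sum_congr rfl (fun k hk => ?_)
  have hk' : k < L := mem_range.mp hk
  have h1 : z ^ L = z ^ (L - 1 - k) * (z * z ^ k) := by
    rw [← pow_succ', ← pow_add]; congr 1; omega
  have h2 : (starRingEnd ℂ) z ^ (L - 1 - k) * z ^ (L - 1 - k) = 1 := by
    rw [← mul_pow, conj_mul_self hz, one_pow]
  rw [h1]
  calc z * ((b (L - 1 - k) : ℂ) * z ^ k)
      = ((starRingEnd ℂ) z ^ (L - 1 - k) * z ^ (L - 1 - k)) * (z * ((b (L - 1 - k) : ℂ) * z ^ k)) := by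
        rw [h2, one_mul]
    _ = _ := by ring

/-- Block composition. -/
def comp (L : ℕ) (s d : ℕ → ℤ) (a b : ℕ → ℤ) : ℕ → ℤ :=
  fun k => s (k / L) * a (k % L) + d (k / L) * b (k % L)

theorem val_comp {L : ℕ} (hL : 0 < L) (s d a b : ℕ → ℤ) (z : ℂ) (K : ℕ) :
    val (K * L) (comp L s d a b) z
      = val K s (z ^ L) * val L a z + val K d (z ^ L) * val L b z := by
  induction K with
  | zero => simp [val_zero]
  | succ K ih =>
    rw [Nat.succ_mul, val_add, ih, val_succ, val_succ]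
    have h : val L (fun k => comp L s d a b (K * L + k)) z
        = (s K : ℂ) * val L a z + (d K : ℂ) * val L b z := by
      rw [val_congr (b := fun k => s K * a k + d K * b k), val_add_fun, val_smul, val_smul]
      intro k hk
      have h1 : (K * L + k) / L = K := by
        rw [mul_comm K L, Nat.mul_add_div hL, Nat.div_eq_of_lt hk, add_zero]
      have h2 : (K * L + k) % L = k := by
        rw [mul_comm K L, Nat.mul_add_mod, Nat.mod_eq_of_lt hk]
      simp only [comp, h1, h2]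
    rw [h, ← pow_mul, mul_comm L K]
    ring

theorem normSq_identity (S T A B : ℂ) :
    ‖S * A + T * (starRingEnd ℂ) B‖ ^ 2 + ‖S * B - T * (starRingEnd ℂ) A‖ ^ 2
      = (‖S‖ ^ 2 + ‖T‖ ^ 2) * (‖A‖ ^ 2 + ‖B‖ ^ 2) := by
  simp only [← Complex.normSq_eq_norm_sq, Complex.normSq_apply, Complex.add_re, Complex.add_im,
    Complex.sub_re, Complex.sub_im, Complex.mul_re, Complex.mul_im, Complex.conj_re,
    Complex.conj_im]
  ring

/-- Turyn's product with a kernel. -/
theorem golay_mul {K L : ℕ} (hL : 0 < L) (s d : ℕ → ℤ)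
    (hsd : ∀ k < K, (s k = 1 ∨ s k = -1) ∧ d k = 0 ∨ s k = 0 ∧ (d k = 1 ∨ d k = -1))
    (hK : ∀ w : ℂ, ‖w‖ = 1 → ‖val K s w‖ ^ 2 + ‖val K d w‖ ^ 2 = K)
    (h : Golay L) : Golay (K * L) := by
  obtain ⟨a, b, ha, hb, hab⟩ := h
  have key : ∀ (u v : ℕ → ℤ) (c : ℤ), IsPM L u → IsPM L v → (c = 1 ∨ c = -1) →
      IsPM (K * L) (comp L s d u (fun r => c * v (L - 1 - r))) := by
    intro u v c hu hv hc k hk
    have h1 : k / L < K := Nat.div_lt_of_lt_mul (by rwa [mul_comm] at hk)
    have h2 : k % L < L := Nat.mod_lt _ hL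
    have h3 := hu _ h2
    have h4 := hv (L - 1 - k % L) (by omega)
    simp only [comp]
    rcases hsd _ h1 with ⟨h5, h6⟩ | ⟨h5, h6⟩
    · rw [h6]
      rcases h5 with h5 | h5 <;> rcases h3 with h3 | h3 <;> simp [h5, h3]
    · rw [h5]
      rcases h6 with h6 | h6 <;> rcases h4 with h4 | h4 <;> rcases hc with hc | hc <;>
        simp [h6, h4, hc]
  refine ⟨comp L s d a (fun r => 1 * b (L - 1 - r)), comp L s d b (fun r => (-1) * a (L - 1 - r)),
    key a b 1 ha hb (Or.inl rfl), key b a (-1) hb ha (Or.inr rfl), ?_⟩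
  intro z hz
  have hz0 : z ≠ 0 := by
    intro h0; rw [h0] at hz; simp at hz
  rw [val_comp hL, val_comp hL, val_smul, val_smul]
  have hrev : ∀ v : ℕ → ℤ, val L (fun r => v (L - 1 - r)) z
      = z⁻¹ * z ^ L * (starRingEnd ℂ) (val L v z) := by
    intro v
    have := val_reverse L v hz
    rw [mul_assoc, ← this]
    field_simp
  rw [hrev, hrev]
  have hw : ‖z ^ L‖ = 1 := by rw [norm_pow, hz, one_pow]
  have hid := normSq_identity (val K s (z ^ L)) (val K d (z ^ L) * (z⁻¹ * z ^ L)) (val L a z)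
    (val L b z)
  have hT : ‖val K d (z ^ L) * (z⁻¹ * z ^ L)‖ = ‖val K d (z ^ L)‖ := by
    rw [norm_mul, norm_mul, norm_inv, hz, hw]; simp
  rw [hT, hK _ hw, hab z hz] at hid
  push_cast
  have e1 : val K s (z ^ L) * val L a z + val K d (z ^ L) *
      (1 * (z⁻¹ * z ^ L * (starRingEnd ℂ) (val L b z)))
      = val K s (z ^ L) * val L a z + val K d (z ^ L) * (z⁻¹ * z ^ L) *
        (starRingEnd ℂ) (val L b z) := by ring
  have e2 : val K s (z ^ L) * val L b z + val K d (z ^ L) *
      (-1 * (z⁻¹ * z ^ L * (starRingEnd ℂ) (val L a z)))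
      = val K s (z ^ L) * val L b z - val K d (z ^ L) * (z⁻¹ * z ^ L) *
        (starRingEnd ℂ) (val L a z) := by ring
  rw [e1, e2, hid]
  ring

theorem golay_one : Golay 1 := by
  refine ⟨fun _ => 1, fun _ => 1, fun _ _ => Or.inl rfl, fun _ _ => Or.inl rfl, ?_⟩
  intro z _
  simp [val]; norm_num

theorem golay_two_mul {L : ℕ} (hL : 0 < L) (h : Golay L) : Golay (2 * L) := by
  refine golay_mul hL (fun k => if k = 0 then 1 else 0) (fun k => if k = 0 then 0 else 1) ?_ ?_ h
  · intro k hk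
    interval_cases k <;> simp
  · intro w hw
    simp [val, sum_range_succ, hw]; norm_num

/-- The kernel of length 10. -/
def s10 : ℕ → ℤ := fun k => [1, 1, -1, 1, 0, 1, 0, 0, 0, 0].getD k 0
/-- The kernel of length 10. -/
def d10 : ℕ → ℤ := fun k => [0, 0, 0, 0, -1, 0, -1, -1, 1, 1].getD k 0

theorem golay_ten_mul {L : ℕ} (hL : 0 < L) (h : Golay L) : Golay (10 * L) := by
  refine golay_mul hL s10 d10 ?_ ?_ h
  · intro k hk
    interval_cases k <;> simp [s10, d10]
  · intro w hw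
    have hw0 : w ≠ 0 := by intro h0; rw [h0] at hw; simp at hw
    have hc : ∀ x : ℂ, ((‖x‖ ^ 2 : ℝ) : ℂ) = x * (starRingEnd ℂ) x := by
      intro x; rw [Complex.mul_conj, Complex.normSq_eq_norm_sq]
    have : ((‖val 10 s10 w‖ ^ 2 + ‖val 10 d10 w‖ ^ 2 : ℝ) : ℂ) = ((10 : ℝ) : ℂ) := by
      rw [Complex.ofReal_add, hc, hc, conj_val, conj_val, ← inv_eq_conj hw]
      simp only [val, sum_range_succ, range_zero, sum_empty, s10, d10]
      simp
      field_simp
      ring
    have h2 := Complex.ofReal_injective this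
    rw [h2]; norm_num

theorem golay_pow (a b : ℕ) : Golay (2 ^ a * 10 ^ b) := by
  induction a with
  | zero =>
    induction b with
    | zero => simpa using golay_one
    | succ b ih =>
      have := golay_ten_mul (by positivity) ih
      have e : 10 * (2 ^ 0 * 10 ^ b) = 2 ^ 0 * 10 ^ (b + 1) := by ring
      rwa [e] at this
  | succ a ih =>
    have := golay_two_mul (by positivity) ih
    have e : 2 * (2 ^ a * 10 ^ b) = 2 ^ (a + 1) * 10 ^ b := by ring
    rwa [e] at this

/-- The norm of one member of a Golay pair. -/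
theorem golay_bound {L : ℕ} (h : Golay L) : ∃ a, IsPM L a ∧
    ∀ z : ℂ, ‖z‖ = 1 → ‖val L a z‖ ≤ Real.sqrt 2 * Real.sqrt L := by
  obtain ⟨a, b, ha, _, hab⟩ := h
  refine ⟨a, ha, fun z hz => ?_⟩
  rw [← Real.sqrt_mul (by norm_num)]
  apply Real.le_sqrt_of_sq_le
  have := hab z hz
  nlinarith [sq_nonneg ‖val L b z‖]

/-- Concatenation. -/
theorem fill (r : ℕ) : ∃ a : ℕ → ℤ, IsPM r a ∧
    ∀ z : ℂ, ‖z‖ = 1 → ‖val r a z‖ ≤ 4 * Real.sqrt r := by
  induction r using Nat.strong_induction_on with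
  | _ r ih =>
    rcases Nat.eq_zero_or_pos r with h0 | hpos
    · subst h0
      exact ⟨fun _ => 1, fun k hk => by omega, fun z _ => by simp [val_zero]⟩
    · set k := Nat.log 2 r with hk
      have h1 : 2 ^ k ≤ r := Nat.pow_log_le_self 2 (by omega)
      have h2 : r < 2 ^ (k + 1) := Nat.lt_pow_succ_log_self (by norm_num) r
      obtain ⟨u, hu, hub⟩ := golay_bound (by simpa using golay_pow k 0 : Golay (2 ^ k))
      obtain ⟨v, hv, hvb⟩ := ih (r - 2 ^ k) (by
        have : 0 < 2 ^ k := by positivity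
        omega)
      refine ⟨fun j => if j < 2 ^ k then u j else v (j - 2 ^ k), ?_, ?_⟩
      · intro j hj
        by_cases hj2 : j < 2 ^ k
        · simp only [hj2, if_true]; exact hu j hj2
        · simp only [hj2, if_false]; exact hv _ (by omega)
      · intro z hz
        obtain ⟨y, hy⟩ : ∃ y, r = 2 ^ k + y := ⟨r - 2 ^ k, by omega⟩
        have hy2 : y < 2 ^ k := by rw [pow_succ] at h2; omega
        have hyr : r - 2 ^ k = y := by omega
        rw [hyr] at hvb
        have e : val r (fun j => if j < 2 ^ k then u j else v (j - 2 ^ k)) z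
            = val (2 ^ k) u z + z ^ (2 ^ k) * val y v z := by
          rw [hy, val_add]
          congr 1
          · exact val_congr (fun j hj => by simp [hj]) z
          · congr 1
            exact val_congr (fun j _ => by simp) z
        rw [e]
        have t1 := hub z hz
        have t2 := hvb z hz
        have t3 : ‖val (2 ^ k) u z + z ^ (2 ^ k) * val y v z‖
            ≤ ‖val (2 ^ k) u z‖ + ‖val y v z‖ := by
          refine (norm_add_le _ _).trans ?_
          rw [norm_mul, norm_pow, hz, one_pow, one_mul]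
        refine t3.trans ?_
        have hxr : (r : ℝ) = ((2 ^ k : ℕ) : ℝ) + y := by rw [← Nat.cast_add, ← hy]
        set x : ℝ := ((2 ^ k : ℕ) : ℝ) with hx
        have hx0 : 0 ≤ x := by positivity
        have hyx : (y : ℝ) ≤ x := by rw [hx]; exact_mod_cast hy2.le
        rw [hxr]
        have hy0 : (0 : ℝ) ≤ y := by positivity
        have s1 := Real.sq_sqrt hx0
        have s2 := Real.sq_sqrt hy0
        have s3 := Real.sq_sqrt (add_nonneg hx0 hy0)
        have s4 := Real.sqrt_nonneg x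
        have s5 := Real.sqrt_nonneg (y : ℝ)
        have s6 := Real.sqrt_nonneg (x + y)
        have s7 : Real.sqrt (y : ℝ) ≤ Real.sqrt x := Real.sqrt_le_sqrt hyx
        have q2 : Real.sqrt 2 ≤ 1.4143 := by
          rw [Real.sqrt_le_left (by norm_num)]; norm_num
        have q3 : 0 ≤ Real.sqrt 2 := Real.sqrt_nonneg 2
        -- sqrt2 * X + 4 Y <= 4 S with S^2 = X^2 + Y^2, 0 <= Y <= X
        have goal' : Real.sqrt 2 * Real.sqrt x + 4 * Real.sqrt y ≤ 4 * Real.sqrt (x + y) := by
          have h5 : (Real.sqrt 2 * Real.sqrt x + 4 * Real.sqrt y) ^ 2 ≤ (4 * Real.sqrt (x + y)) ^ 2 := by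
            have : (Real.sqrt 2) ^ 2 = 2 := Real.sq_sqrt (by norm_num)
            nlinarith [mul_nonneg s4 s5, mul_nonneg (mul_nonneg q3 s4) s5, mul_self_nonneg (Real.sqrt x - Real.sqrt y), mul_nonneg s4 (sub_nonneg.mpr s7), mul_nonneg (mul_nonneg s4 s5) (sub_nonneg.mpr q2)]
          exact abs_le_of_sq_le_sq' h5 (by positivity) |>.2
        calc ‖val (2 ^ k) u z‖ + ‖val y v z‖ ≤ Real.sqrt 2 * Real.sqrt x + 4 * Real.sqrt y :=
              add_le_add t1 t2
          _ ≤ _ := goal'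

end Pool.Agent.Helper33.FL
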