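import Pool.Agent.Helper33.FL.Golay
import Pool.Agent.Helper33.FL.Dense

/-!
# Skew-symmetric sequences with sup norm (sqrt 2 + o(1)) sqrt n
-/

namespace Pool.Agent.Helper33.FL

open Finset

/-- Interleaving. -/
theorem val_interleave (g : ℕ) (A B c : ℕ → ℤ) (h0 : ∀ i < g, c (2 * i) = B i)
    (h1 : ∀ i < g, c (2 * i + 1) = A i) (z : ℂ) :
    val (2 * g) c z = val g B (z ^ 2) + z * val g A (z ^ 2) := by
  induction g with
  | zero => simp [val_zero]
  | succ g ih =>
    have e : 2 * (g + 1) = 2 * g + 1 + 1 := by ring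
    rw [e, val_succ, val_succ, ih (fun i hi => h0 i (by omega)) (fun i hi => h1 i (by omega)),
      val_succ, val_succ, h0 g (by omega), h1 g (by omega)]
    ring

/-- The sequence built from its half. -/
def skew (m : ℕ) (c : ℕ → ℤ) : ℕ → ℤ :=
  fun k => if k < m then c (m - k) else (-1) ^ (k - m) * c (k - m)

theorem skew_pm {m : ℕ} {c : ℕ → ℤ} (hc : IsPM (m + 1) c) : IsPM (2 * m + 1) (skew m c) := by
  intro k hk
  unfold skew
  by_cases h : k < m
  · simp only [h, if_true]; exact hc _ (by omega)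
  · simp only [h, if_false]
    have h1 := hc (k - m) (by omega)
    rcases neg_one_pow_eq_or ℤ (k - m) with h2 | h2 <;> rcases h1 with h1 | h1 <;>
      simp [h2, h1]

theorem skew_symm {m : ℕ} {c : ℕ → ℤ} (j : ℕ) (hj : j ≤ m) :
    skew m c (m + j) = (-1) ^ j * skew m c (m - j) := by
  unfold skew
  have h1 : ¬ (m + j < m) := by omega
  have h2 : m + j - m = j := by omega
  simp only [h1, if_false, h2]
  rcases Nat.eq_zero_or_pos j with h0 | h0
  · subst h0; simp
  · have h3 : m - j < m := by omega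
    have h4 : m - (m - j) = j := by omega
    simp only [h3, if_true, h4]

theorem val_skew (m : ℕ) (c : ℕ → ℤ) {z : ℂ} (hz : ‖z‖ = 1) :
    val (2 * m + 1) (skew m c) z
      = z ^ m * ((starRingEnd ℂ) (val (m + 1) c z) + val (m + 1) c (-z) - c 0) := by
  have e : 2 * m + 1 = m + (m + 1) := by ring
  rw [e, val_add]
  have h1 : val (m + 1) (fun k => skew m c (m + k)) z = val (m + 1) c (-z) := by
    unfold val
    refine sum_congr rfl (fun k _ => ?_)
    have h1 : ¬ (m + k < m) := by omega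
    have h2 : m + k - m = k := by omega
    simp only [skew, h1, if_false, h2]
    rw [neg_pow z k]; push_cast; ring
  have h2 : val m (skew m c) z = z ^ m * ((starRingEnd ℂ) (val (m + 1) c z) - c 0) := by
    rw [conj_val]
    unfold val
    rw [sum_range_succ', pow_zero, mul_one, add_sub_cancel_right, mul_sum,
      ← sum_range_reflect]
    refine sum_congr rfl (fun k hk => ?_)
    have hk' : k < m := mem_range.mp hk
    have h1 : m - 1 - k < m := by omega
    have h2 : m - (m - 1 - k) = k + 1 := by omega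
    simp only [skew, h1, if_true, h2]
    have h3 : z ^ m = z ^ (m - 1 - k) * z ^ (k + 1) := by
      rw [← pow_add]; congr 1; omega
    have h4 : (starRingEnd ℂ) z ^ (k + 1) * z ^ (k + 1) = 1 := by
      rw [← mul_pow, conj_mul_self hz, one_pow]
    rw [h3]
    calc (c (k + 1) : ℂ) * z ^ (m - 1 - k)
        = (c (k + 1) : ℂ) * z ^ (m - 1 - k) * ((starRingEnd ℂ) z ^ (k + 1) * z ^ (k + 1)) := by
          rw [h4, mul_one]
      _ = _ := by ring
  rw [h1, h2]; ring

theorem norm_combo (X Y : ℂ) :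
    ‖X + (starRingEnd ℂ) X - (Y - (starRingEnd ℂ) Y)‖ ≤ 2 * Real.sqrt (‖X‖ ^ 2 + ‖Y‖ ^ 2) := by
  have h : ‖X + (starRingEnd ℂ) X - (Y - (starRingEnd ℂ) Y)‖ ^ 2
      ≤ (2 * Real.sqrt (‖X‖ ^ 2 + ‖Y‖ ^ 2)) ^ 2 := by
    rw [mul_pow, Real.sq_sqrt (by positivity)]
    simp only [← Complex.normSq_eq_norm_sq, Complex.normSq_apply, Complex.add_re, Complex.add_im,
      Complex.sub_re, Complex.sub_im, Complex.conj_re, Complex.conj_im]
    nlinarith [mul_self_nonneg X.im, mul_self_nonneg Y.re]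
  exact abs_le_of_sq_le_sq' h (by positivity) |>.2

/-- The main construction. -/
theorem skew_exists (m g : ℕ) (hg : Golay g) (hgm : 2 * g ≤ m) :
    ∃ c : ℕ → ℤ, IsPM (m + 1) c ∧ ∀ z : ℂ, ‖z‖ = 1 →
      ‖val (2 * m + 1) (skew m c) z‖
        ≤ 1 + Real.sqrt (4 * m) + 8 * Real.sqrt ((m - 2 * g : ℕ) : ℝ) := by
  obtain ⟨r, hr⟩ : ∃ r, m = 2 * g + r := ⟨m - 2 * g, by omega⟩
  have hr2 : m - 2 * g = r := by omega
  obtain ⟨A, B, hA, hB, hAB⟩ := hg
  obtain ⟨v, hv, hvb⟩ := fill r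
  set c1 : ℕ → ℤ := fun j => if j < 2 * g then (if j % 2 = 0 then B (j / 2) else A (j / 2))
    else v (j - 2 * g) with hc1
  set c : ℕ → ℤ := fun j => if j = 0 then 1 else c1 (j - 1) with hc
  have hc1pm : IsPM m c1 := by
    intro j hj
    simp only [hc1]
    split_ifs with h1 h2
    · exact hB _ (by omega)
    · exact hA _ (by omega)
    · exact hv _ (by omega)
  refine ⟨c, ?_, ?_⟩
  · intro j hj
    simp only [hc]
    split_ifs with h1
    · exact Or.inl rfl
    · exact hc1pm _ (by omega)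
  · intro z hz
    have hV : ∀ w : ℂ, val (m + 1) c w = 1 + w * (val g B (w ^ 2) + w * val g A (w ^ 2)
        + w ^ (2 * g) * val r v w) := by
      intro w
      rw [add_comm m 1, val_add]
      have h1 : val 1 c w = 1 := by simp [val, hc]
      have h2 : val m (fun k => c (1 + k)) w = val m c1 w := by
        refine val_congr (fun k _ => ?_) w
        simp only [hc]
        have : 1 + k ≠ 0 := by omega
        simp
      rw [h1, h2, hr, val_add, val_interleave g A B c1]
      · have h3 : val r (fun k => c1 (2 * g + k)) w = val r v w := by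
          refine val_congr (fun k _ => ?_) w
          simp [hc1]
        rw [h3]; ring
      · intro i hi
        have h1 : 2 * i < 2 * g := by omega
        simp [hc1, h1]
      · intro i hi
        have h1 : 2 * i + 1 < 2 * g := by omega
        have h2 : (2 * i + 1) % 2 = 1 := by omega
        have h3 : (2 * i + 1) / 2 = i := by omega
        simp [hc1, h1, h2, h3]
    have hc0 : (c 0 : ℂ) = 1 := by simp [hc]
    rw [val_skew m c hz, norm_mul, norm_pow, hz, one_pow, one_mul, hV, hV, hc0]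
    set X : ℂ := z * (z * val g A (z ^ 2)) with hX
    set Y : ℂ := z * val g B (z ^ 2) with hY
    have hX2 : ‖X‖ = ‖val g A (z ^ 2)‖ := by rw [hX, norm_mul, norm_mul, hz]; ring
    have hY2 : ‖Y‖ = ‖val g B (z ^ 2)‖ := by rw [hY, norm_mul, hz]; ring
    have hz2 : ‖z ^ 2‖ = 1 := by rw [norm_pow, hz, one_pow]
    have hXY : ‖X‖ ^ 2 + ‖Y‖ ^ 2 = 2 * g := by rw [hX2, hY2]; exact hAB _ hz2
    have hzn : ‖-z‖ = 1 := by rw [norm_neg, hz]
    have key : (starRingEnd ℂ) (1 + z * (val g B (z ^ 2) + z * val g A (z ^ 2)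
          + z ^ (2 * g) * val r v z))
        + (1 + -z * (val g B ((-z) ^ 2) + -z * val g A ((-z) ^ 2) + (-z) ^ (2 * g) * val r v (-z)))
        - 1
        = 1 + (X + (starRingEnd ℂ) X - (Y - (starRingEnd ℂ) Y))
          + ((starRingEnd ℂ) (z * (z ^ (2 * g) * val r v z))
            + (-z) * ((-z) ^ (2 * g) * val r v (-z))) := by
      simp only [hX, hY, map_add, map_mul, map_one, map_pow, neg_sq]
      ring
    rw [key]
    have n1 : ‖(starRingEnd ℂ) (z * (z ^ (2 * g) * val r v z))‖ ≤ 4 * Real.sqrt r := by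
      rw [RCLike.norm_conj, norm_mul, norm_mul, norm_pow, hz, one_pow, one_mul, one_mul]
      exact hvb z hz
    have n2 : ‖(-z) * ((-z) ^ (2 * g) * val r v (-z))‖ ≤ 4 * Real.sqrt r := by
      rw [norm_mul, norm_mul, norm_pow, hzn, one_pow, one_mul, one_mul]
      exact hvb _ hzn
    have n3 := norm_combo X Y
    rw [hXY] at n3
    have n4 : 2 * Real.sqrt (2 * g) ≤ Real.sqrt (4 * m) := by
      apply Real.le_sqrt_of_sq_le
      rw [mul_pow, Real.sq_sqrt (by positivity)]
      have : ((2 * g : ℕ) : ℝ) ≤ m := by exact_mod_cast hgm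
      push_cast at this
      linarith
    rw [hr2]
    calc _ ≤ ‖(1 : ℂ) + (X + (starRingEnd ℂ) X - (Y - (starRingEnd ℂ) Y))‖
          + ‖((starRingEnd ℂ) (z * (z ^ (2 * g) * val r v z))
            + (-z) * ((-z) ^ (2 * g) * val r v (-z)))‖ := norm_add_le _ _
      _ ≤ (‖(1 : ℂ)‖ + ‖X + (starRingEnd ℂ) X - (Y - (starRingEnd ℂ) Y)‖)
          + (‖(starRingEnd ℂ) (z * (z ^ (2 * g) * val r v z))‖
            + ‖(-z) * ((-z) ^ (2 * g) * val r v (-z))‖) :=
          add_le_add (norm_add_le _ _) (norm_add_le _ _)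
      _ ≤ _ := by rw [norm_one]; linarith

/-- The asymptotic form. -/
theorem skew_eventually (ε : ℝ) (hε : 0 < ε) : ∃ N : ℕ, ∀ m : ℕ, N ≤ m →
    ∃ c : ℕ → ℤ, IsPM (m + 1) c ∧ ∀ z : ℂ, ‖z‖ = 1 →
      ‖val (2 * m + 1) (skew m c) z‖ ≤ (Real.sqrt 2 + ε) * Real.sqrt (2 * m + 1) := by
  -- choose rho with 1 - rho = η, small
  set η : ℝ := min (1 / 2) ((ε / 16) ^ 2) with hη
  have hη0 : 0 < η := by rw [hη]; positivity
  have hη1 : η ≤ 1 / 2 := min_le_left _ _
  have hη2 : η ≤ (ε / 16) ^ 2 := min_le_right _ _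
  obtain ⟨X, hX⟩ := dense_golay (1 - η) (by linarith) (by linarith)
  obtain ⟨K, hK⟩ := exists_nat_gt ((1 + 8) / (ε / 4))
  refine ⟨2 * X + K ^ 2, fun m hm => ?_⟩
  obtain ⟨a, b, hab1, hab2⟩ := hX (m / 2) (by
    have : 0 ≤ K ^ 2 := by positivity
    omega)
  set g := 2 ^ a * 10 ^ b with hg
  have hgm : 2 * g ≤ m := by omega
  obtain ⟨c, hc, hcb⟩ := skew_exists m g (golay_pow a b) hgm
  refine ⟨c, hc, fun z hz => (hcb z hz).trans ?_⟩
  -- r ≤ η m + 1
  have hm2 : (m : ℝ) ≤ 2 * ((m / 2 : ℕ) : ℝ) + 1 := by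
    have : m ≤ 2 * (m / 2) + 1 := by omega
    exact_mod_cast this
  have hm3 : 2 * ((m / 2 : ℕ) : ℝ) ≤ m := by
    have : 2 * (m / 2) ≤ m := by omega
    exact_mod_cast this
  have hrr : ((m - 2 * g : ℕ) : ℝ) ≤ η * m + 1 := by
    rw [Nat.cast_sub hgm]
    push_cast
    nlinarith
  have hmK : (K : ℝ) ^ 2 ≤ 2 * m + 1 := by
    have : K ^ 2 ≤ 2 * m + 1 := by omega
    exact_mod_cast this
  have hs : (K : ℝ) ≤ Real.sqrt (2 * m + 1) := Real.le_sqrt_of_sq_le hmK
  have h1 : Real.sqrt ((m - 2 * g : ℕ) : ℝ) ≤ (ε / 16) * Real.sqrt (2 * m + 1) + 1 := by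
    rw [Real.sqrt_le_left (by positivity)]
    have hs2 : Real.sqrt (2 * m + 1) ^ 2 = 2 * m + 1 := Real.sq_sqrt (by positivity)
    have hs0 := Real.sqrt_nonneg (2 * (m : ℝ) + 1)
    have : η * m ≤ (ε / 16) ^ 2 * (2 * m + 1) := by
      calc η * m ≤ (ε / 16) ^ 2 * m := mul_le_mul_of_nonneg_right hη2 (by positivity)
        _ ≤ _ := by
          apply mul_le_mul_of_nonneg_left _ (by positivity)
          have : (0 : ℝ) ≤ m := by positivity
          linarith
    have h3 : 0 ≤ 2 * ((ε / 16) * Real.sqrt (2 * m + 1)) := by positivity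
    nlinarith
  have h2 : Real.sqrt (4 * m) ≤ Real.sqrt 2 * Real.sqrt (2 * m + 1) := by
    rw [← Real.sqrt_mul (by norm_num)]
    apply Real.sqrt_le_sqrt
    linarith
  have h3 : (1 + 8 : ℝ) ≤ (ε / 4) * Real.sqrt (2 * m + 1) := by
    have : (1 + 8 : ℝ) / (ε / 4) ≤ Real.sqrt (2 * m + 1) := hK.le.trans hs
    rw [div_le_iff₀ (by positivity)] at this
    linarith
  have hs0 := Real.sqrt_nonneg (2 * (m : ℝ) + 1)
  have h4 : 0 ≤ ε * Real.sqrt (2 * m + 1) := by positivity
  nlinarith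

end Pool.Agent.Helper33.FL
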