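import Pool.Agent.Helper33.FL.Facts

/-!
# Consecutive indices
-/

namespace Pool.Agent.Helper33.FL

open Filter Topology

theorem sub_U : Sub U := fun _ _ h => h

theorem sub_UStar : Sub UStar := fun _ _ h => h.1

theorem abs_norm_sub_le {x y : ℂ} {d : ℝ} (h : ‖y - x‖ ≤ d) : |‖x‖ - ‖y‖| ≤ d := by
  refine (abs_norm_sub_norm_le x y).trans ?_
  rwa [norm_sub_rev]

theorem matched_U (n : ℕ) : Matched (U n) (U (n + 1)) := by
  have key : ∀ a : ℕ → ℤ, IsPM (n + 1 + 1) a → ∀ z : ℂ, ‖z‖ = 1 →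
      |‖(poly (n + 1) a).eval z‖ - ‖(poly (n + 1 + 1) a).eval z‖| ≤ 2 := by
    intro a ha z hz
    apply abs_norm_sub_le
    rw [eval_poly, eval_poly, val_succ, add_sub_cancel_left, norm_mul, norm_pow, hz, one_pow,
      mul_one]
    rcases ha (n + 1) (by omega) with h | h <;> rw [h] <;> norm_num
  constructor
  · intro F hF
    obtain ⟨a, ha, rfl⟩ := exists_of_mem_U hF
    set b : ℕ → ℤ := fun k => if k < n + 1 then a k else 1 with hb
    have hb1 : IsPM (n + 1 + 1) b := by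
      intro k hk
      simp only [hb]
      split_ifs with h
      · exact ha k h
      · exact Or.inl rfl
    refine ⟨poly (n + 1 + 1) b, poly_mem_U hb1, fun z hz => ?_⟩
    have h1 := key b hb1 z hz
    have h2 : (poly (n + 1) a).eval z = (poly (n + 1) b).eval z := by
      rw [eval_poly, eval_poly]
      exact val_congr (fun k hk => by simp only [hb, if_pos hk]) z
    rw [h2]; exact h1
  · intro G hG
    obtain ⟨a, ha, rfl⟩ := exists_of_mem_U hG
    exact ⟨poly (n + 1) a, poly_mem_U (fun k hk => ha k (by omega)), fun z hz => key a ha z hz⟩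

theorem matched_UStar (m : ℕ) : Matched (UStar (2 * m)) (UStar (2 * m + 2)) := by
  have e : 2 * m + 2 = 2 * (m + 1) := by ring
  have key : ∀ c : ℕ → ℤ, IsPM (m + 1 + 1) c → ∀ z : ℂ, ‖z‖ = 1 →
      |‖(poly (2 * m + 1) (skew m c)).eval z‖
        - ‖(poly (2 * (m + 1) + 1) (skew (m + 1) c)).eval z‖| ≤ 2 := by
    intro c hc z hz
    rw [eval_poly, eval_poly, val_skew m c hz, val_skew (m + 1) c hz, norm_mul, norm_mul,
      norm_pow, norm_pow, hz, one_pow, one_pow, one_mul, one_mul]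
    apply abs_norm_sub_le
    have h : (starRingEnd ℂ) (val (m + 1 + 1) c z) + val (m + 1 + 1) c (-z) - (c 0 : ℂ)
        - ((starRingEnd ℂ) (val (m + 1) c z) + val (m + 1) c (-z) - (c 0 : ℂ))
        = (starRingEnd ℂ) ((c (m + 1) : ℂ) * z ^ (m + 1)) + (c (m + 1) : ℂ) * (-z) ^ (m + 1) := by
      rw [val_succ (m + 1), val_succ (m + 1), map_add]; ring
    rw [h]
    have hcn : ‖(c (m + 1) : ℂ)‖ = 1 := by
      rcases hc (m + 1) (by omega) with h | h <;> rw [h] <;> simp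
    calc _ ≤ ‖(starRingEnd ℂ) ((c (m + 1) : ℂ) * z ^ (m + 1))‖
          + ‖(c (m + 1) : ℂ) * (-z) ^ (m + 1)‖ := norm_add_le _ _
      _ = 2 := by
        rw [RCLike.norm_conj, norm_mul, norm_mul, norm_pow, norm_pow, norm_neg, hz, hcn]
        norm_num
  rw [e]
  constructor
  · intro F hF
    obtain ⟨c, hc, rfl⟩ := exists_of_mem_UStar hF
    set b : ℕ → ℤ := fun k => if k < m + 1 then c k else 1 with hb
    have hb1 : IsPM (m + 1 + 1) b := by
      intro k hk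
      simp only [hb]
      split_ifs with h
      · exact hc k h
      · exact Or.inl rfl
    refine ⟨poly (2 * (m + 1) + 1) (skew (m + 1) b), poly_mem_UStar hb1, fun z hz => ?_⟩
    have h1 := key b hb1 z hz
    have h2 : (poly (2 * m + 1) (skew m c)).eval z = (poly (2 * m + 1) (skew m b)).eval z := by
      have h3 : ∀ w : ℂ, val (m + 1) c w = val (m + 1) b w := fun w =>
        val_congr (fun k hk => by simp only [hb, if_pos hk]) w
      have h4 : b 0 = c 0 := by simp [hb]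
      rw [eval_poly, eval_poly, val_skew m c hz, val_skew m b hz, h3, h3, h4]
    rw [h2]; exact h1
  · intro G hG
    obtain ⟨c, hc, rfl⟩ := exists_of_mem_UStar hG
    exact ⟨poly (2 * m + 1) (skew m c), poly_mem_UStar (fun k hk => hc k (by omega)),
      fun z hz => key c hc z hz⟩

theorem tendsto_diff {u : ℕ → ℝ} (h : ∀ n : ℕ, |u n - u (n + 1)| ≤ 8 / Real.sqrt (n + 1)) :
    Tendsto (fun n => u (n + 1) - u n) atTop (𝓝 0) := by
  have h1 : Tendsto (fun n : ℕ => 8 / Real.sqrt ((n : ℝ) + 1)) atTop (𝓝 0) := by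
    apply Tendsto.div_atTop tendsto_const_nhds
    exact Real.tendsto_sqrt_atTop.comp (tendsto_atTop_add_const_right _ _
      tendsto_natCast_atTop_atTop)
  rw [tendsto_zero_iff_abs_tendsto_zero]
  refine squeeze_zero (fun n => abs_nonneg _) (fun n => ?_) h1
  simp only [Function.comp_apply]
  rw [abs_sub_comm]; exact h n

theorem four_le (n : ℕ) : 4 / Real.sqrt ((n : ℝ) + 1) ≤ 8 / Real.sqrt ((n : ℝ) + 1) :=
  div_le_div_of_nonneg_right (by norm_num) (Real.sqrt_nonneg _)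

theorem eight_le (k : ℕ) :
    8 / Real.sqrt (((2 * k : ℕ) : ℝ) + 1) ≤ 8 / Real.sqrt ((k : ℝ) + 1) := by
  apply div_le_div_of_nonneg_left (by norm_num) (Real.sqrt_pos.mpr (by positivity))
  apply Real.sqrt_le_sqrt
  push_cast
  have : (0 : ℝ) ≤ k := by positivity
  linarith

theorem steps_U (n : ℕ) : |MM U n - MM U (n + 1)| ≤ 8 / Real.sqrt (n + 1) ∧
    |mm U n - mm U (n + 1)| ≤ 8 / Real.sqrt (n + 1) ∧
    |WW U n - WW U (n + 1)| ≤ 8 / Real.sqrt (n + 1) := by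
  obtain ⟨h1, h2, h3⟩ := extremal_close sub_U (n := n) (s := 1) (by norm_num) (U_nonempty n)
    (U_nonempty (n + 1)) (matched_U n)
  exact ⟨h1.trans (four_le n), h2.trans (four_le n), h3⟩

theorem steps_UStar (k : ℕ) :
    |MM UStar (2 * k) - MM UStar (2 * (k + 1))| ≤ 8 / Real.sqrt (k + 1) ∧
    |mm UStar (2 * k) - mm UStar (2 * (k + 1))| ≤ 8 / Real.sqrt (k + 1) ∧
    |WW UStar (2 * k) - WW UStar (2 * (k + 1))| ≤ 8 / Real.sqrt (k + 1) := by
  have e : 2 * (k + 1) = 2 * k + 2 := by ring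
  obtain ⟨h1, h2, h3⟩ := extremal_close sub_UStar (n := 2 * k) (s := 2) (by norm_num)
    (UStar_nonempty k) (by rw [← e]; exact UStar_nonempty (k + 1)) (matched_UStar k)
  rw [e]
  exact ⟨(h1.trans (four_le _)).trans (eight_le k), (h2.trans (four_le _)).trans (eight_le k),
    h3.trans (eight_le k)⟩

/-! ### Bounds -/

theorem MM_ge {A : ℕ → Set (Polynomial ℂ)} (hA : Sub A) {n : ℕ} (hne : (A n).Nonempty) :
    1 ≤ MM A n := by
  apply le_csInf (hne.image _)
  rintro _ ⟨F, hF, rfl⟩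
  exact one_le_max (hA n F hF)

theorem mm_nonneg {A : ℕ → Set (Polynomial ℂ)} (n : ℕ) : 0 ≤ mm A n := by
  apply Real.sSup_nonneg
  rintro _ ⟨F, _, rfl⟩
  exact min_nonneg n F

theorem mm_le {A : ℕ → Set (Polynomial ℂ)} (hA : Sub A) {n : ℕ} (hne : (A n).Nonempty) :
    mm A n ≤ 1 := by
  apply csSup_le (hne.image _)
  rintro _ ⟨F, hF, rfl⟩
  exact min_le_one (hA n F hF)

theorem WW_nonneg {A : ℕ → Set (Polynomial ℂ)} (hA : Sub A) (n : ℕ) : 0 ≤ WW A n := by
  apply Real.sInf_nonneg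
  rintro _ ⟨F, hF, rfl⟩
  exact width_nonneg (hA n F hF)

theorem WW_le {A : ℕ → Set (Polynomial ℂ)} (hA : Sub A) {n : ℕ} (hne : (A n).Nonempty) :
    WW A n ≤ MM A n := by
  apply le_csInf (hne.image _)
  rintro _ ⟨F, hF, rfl⟩
  refine le_trans (csInf_le ⟨0, ?_⟩ ⟨F, hF, rfl⟩) (width_le_max n F)
  rintro _ ⟨G, hG, rfl⟩
  exact width_nonneg (hA n G hG)

theorem MM_le {A : ℕ → Set (Polynomial ℂ)} (hA : Sub A) {n : ℕ} {F : Polynomial ℂ} (hF : F ∈ A n)
    {B : ℝ} (h : ∀ z : ℂ, ‖z‖ = 1 → ‖F.eval z‖ ≤ B * Real.sqrt (n + 1)) : MM A n ≤ B := by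
  have h1 : MM A n ≤ maxMod n F := by
    refine csInf_le ⟨1, ?_⟩ ⟨F, hF, rfl⟩
    rintro _ ⟨G, hG, rfl⟩
    exact one_le_max (hA n G hG)
  refine h1.trans (max_le (fun z hz => ?_))
  rw [div_le_iff₀ (Real.sqrt_pos.mpr (by positivity))]
  exact h z hz

theorem MM_UStar_le (ε : ℝ) (hε : 0 < ε) : ∃ N : ℕ, ∀ m, N ≤ m →
    MM UStar (2 * m) ≤ Real.sqrt 2 + ε ∧ MM U (2 * m) ≤ Real.sqrt 2 + ε := by
  obtain ⟨N, hN⟩ := skew_eventually ε hε
  refine ⟨N, fun m hm => ?_⟩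
  obtain ⟨c, hc, hcb⟩ := hN m hm
  have hmem := poly_mem_UStar hc
  have hb : ∀ z : ℂ, ‖z‖ = 1 → ‖(poly (2 * m + 1) (skew m c)).eval z‖
      ≤ (Real.sqrt 2 + ε) * Real.sqrt (((2 * m : ℕ) : ℝ) + 1) := by
    intro z hz
    rw [eval_poly]
    have := hcb z hz
    push_cast
    exact this
  exact ⟨MM_le sub_UStar hmem hb, MM_le sub_U hmem.1 hb⟩

theorem MM_U_le (ε : ℝ) (hε : 0 < ε) : ∃ N : ℕ, ∀ n, N ≤ n → MM U n ≤ Real.sqrt 2 + ε := by
  obtain ⟨N, hN⟩ := MM_UStar_le (ε / 2) (by positivity)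
  have hd := tendsto_diff (u := fun n => MM U n) (fun n => (steps_U n).1)
  have h1 := Metric.tendsto_nhds.mp hd (ε / 2) (by positivity)
  obtain ⟨N2, hN2⟩ := eventually_atTop.mp h1
  refine ⟨2 * N + N2 + 1, fun n hn => ?_⟩
  rcases Nat.even_or_odd' n with ⟨m, hm | hm⟩
  · have := (hN m (by omega)).2
    rw [hm]; linarith
  · have h2 := (hN m (by omega)).2
    have h3 := hN2 (2 * m) (by omega)
    simp only [Real.dist_eq, sub_zero] at h3
    rw [hm]
    linarith [(abs_lt.mp h3).2]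

end Pool.Agent.Helper33.FL
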